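import Mathlib

/-!
# A univariate map for sums of few products of univariate polynomials

A nonzero bivariate polynomial `∑ r, G r (x) * H r (y)` with `W` summands stays nonzero under
`x ↦ t ^ W`, `y ↦ t ^ W + t ^ (W - 1)`.
-/

set_option autoImplicit false

namespace Pool.Agent.V8H61.RK

open Polynomial Finset

variable {K : Type*} [Field K] [CharZero K]

/-- A functional supported on at most `W` integers, not zero, is not zero on some binomial
coefficient of order below `W`. -/
theorem exists_choose (W : ℕ) (J : Finset ℕ) (hJ : J.card ≤ W) (a : ℕ → K)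
    (j0 : ℕ) (h0 : j0 ∈ J) (ha : a j0 ≠ 0) : ∃ s < W, ∑ j ∈ J, a j * (j.choose s : K) ≠ 0 := by
  classical
  by_contra hcon
  push Not at hcon
  have key : ∀ s ≤ W, ∀ q : K[X], q.degree < (s : WithBot ℕ) → ∑ j ∈ J, a j * q.eval (j : K) = 0 := by
    intro s
    induction s with
    | zero =>
      intro _ q hq
      have : q = 0 := by
        refine Polynomial.ext fun n => ?_
        rw [(Polynomial.degree_lt_iff_coeff_zero q 0).1 (by exact_mod_cast hq) n (Nat.zero_le n),
          coeff_zero]
      simp [this]
    | succ s ih =>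
      intro hs q hq
      have h1 := ih (by omega) (q - C (q.coeff s) * descPochhammer K s) (by
        rw [Polynomial.degree_lt_iff_coeff_zero]
        intro m hm
        rw [coeff_sub, coeff_C_mul]
        rcases hm.eq_or_lt with h | h
        · subst h
          have : (descPochhammer K s).coeff s = 1 := by
            have := (monic_descPochhammer K s).coeff_natDegree
            rwa [descPochhammer_natDegree] at this
          rw [this]; ring
        · have e1 : q.coeff m = 0 := (Polynomial.degree_lt_iff_coeff_zero q (s + 1)).1 (by exact_mod_cast hq) m h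
          have e2 : (descPochhammer K s).coeff m = 0 := by
            apply Polynomial.coeff_eq_zero_of_natDegree_lt
            rw [descPochhammer_natDegree]; exact h
          rw [e1, e2]; ring)
      have h2 : ∑ j ∈ J, a j * (descPochhammer K s).eval (j : K) = 0 := by
        have h3 := hcon s (by omega)
        have h4 : ∀ j : ℕ, (descPochhammer K s).eval (j : K) = (s.factorial : K) * (j.choose s : K) := by
          intro j
          rw [descPochhammer_eval_eq_descFactorial, Nat.descFactorial_eq_factorial_mul_choose]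
          push_cast; ring
        calc ∑ j ∈ J, a j * (descPochhammer K s).eval (j : K)
            = (s.factorial : K) * ∑ j ∈ J, a j * (j.choose s : K) := by
              rw [Finset.mul_sum]
              exact Finset.sum_congr rfl fun j _ => by rw [h4]; ring
          _ = 0 := by rw [h3, mul_zero]
      have h5 : ∑ j ∈ J, a j * q.eval (j : K)
          = ∑ j ∈ J, a j * (q - C (q.coeff s) * descPochhammer K s).eval (j : K)
            + q.coeff s * ∑ j ∈ J, a j * (descPochhammer K s).eval (j : K) := by
        rw [Finset.mul_sum, ← Finset.sum_add_distrib]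
        refine Finset.sum_congr rfl fun j _ => ?_
        rw [eval_sub, eval_mul, eval_C]; ring
      rw [h5, h1, h2]; ring
  have h1 := key J.card hJ (∏ j ∈ J.erase j0, (X - C (j : K))) (by
    rw [Polynomial.degree_prod]
    simp only [degree_X_sub_C, Finset.sum_const, nsmul_eq_mul, mul_one]
    rw [Finset.card_erase_of_mem h0]
    have : 0 < J.card := Finset.card_pos.2 ⟨j0, h0⟩
    exact_mod_cast (by omega : J.card - 1 < J.card))
  rw [Finset.sum_eq_single_of_mem j0 h0] at h1
  · rw [mul_eq_zero] at h1
    rcases h1 with h1 | h1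
    · exact ha h1
    · rw [eval_prod, Finset.prod_eq_zero_iff] at h1
      obtain ⟨j, hj, hj'⟩ := h1
      rw [Finset.mem_erase] at hj
      rw [eval_sub, eval_X, eval_C, sub_eq_zero] at hj'
      exact hj.1 (by exact_mod_cast hj'.symm)
  · intro j hj hne
    rw [eval_prod, Finset.prod_eq_zero (Finset.mem_erase.2 ⟨hne, hj⟩) (by simp)]
    ring

/-- The main lemma. -/
theorem biv (W : ℕ) (hW : 1 ≤ W) (G H : Fin W → Polynomial K) (x0 y0 : K)
    (h : ∑ r, (G r).eval x0 * (H r).eval y0 ≠ 0) :
    ∃ t : K, ∑ r, (G r).eval (t ^ W) * (H r).eval (t ^ W + t ^ (W - 1)) ≠ 0 := by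
  classical
  -- the coefficients
  let m : ℕ → ℕ → K := fun i j => ∑ r, (G r).coeff i * (H r).coeff j
  let N : ℕ := (∑ r, (G r).natDegree) + ∑ r, (H r).natDegree
  have hNG : ∀ r i, N < i → (G r).coeff i = 0 := by
    intro r i hi
    apply Polynomial.coeff_eq_zero_of_natDegree_lt
    have := Finset.single_le_sum (f := fun r => (G r).natDegree) (fun _ _ => Nat.zero_le _)
      (Finset.mem_univ r)
    omega
  have hNH : ∀ r j, N < j → (H r).coeff j = 0 := by
    intro r i hi
    apply Polynomial.coeff_eq_zero_of_natDegree_lt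
    have := Finset.single_le_sum (f := fun r => (H r).natDegree) (fun _ _ => Nat.zero_le _)
      (Finset.mem_univ r)
    omega
  have hm0 : ∀ i j, (N < i ∨ N < j) → m i j = 0 := by
    rintro i j (hi | hj)
    · exact Finset.sum_eq_zero fun r _ => by rw [hNG r i hi, zero_mul]
    · exact Finset.sum_eq_zero fun r _ => by rw [hNH r j hj, mul_zero]
  have hexp : ∀ x y : K, ∑ r, (G r).eval x * (H r).eval y
      = ∑ i ∈ range (N + 1), ∑ j ∈ range (N + 1), m i j * (x ^ i * y ^ j) := by
    intro x y
    have e1 : ∀ r, (G r).eval x = ∑ i ∈ range (N + 1), (G r).coeff i * x ^ i := fun r =>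
      Polynomial.eval_eq_sum_range' (by
        have := Finset.single_le_sum (f := fun r => (G r).natDegree) (fun _ _ => Nat.zero_le _)
          (Finset.mem_univ r)
        omega) x
    have e2 : ∀ r, (H r).eval y = ∑ j ∈ range (N + 1), (H r).coeff j * y ^ j := fun r =>
      Polynomial.eval_eq_sum_range' (by
        have := Finset.single_le_sum (f := fun r => (H r).natDegree) (fun _ _ => Nat.zero_le _)
          (Finset.mem_univ r)
        omega) y
    calc ∑ r, (G r).eval x * (H r).eval y
        = ∑ r, ∑ i ∈ range (N + 1), ∑ j ∈ range (N + 1),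
            ((G r).coeff i * (H r).coeff j) * (x ^ i * y ^ j) := by
          refine Finset.sum_congr rfl fun r _ => ?_
          rw [e1, e2, Finset.sum_mul_sum]
          exact Finset.sum_congr rfl fun i _ => Finset.sum_congr rfl fun j _ => by ring
      _ = _ := by
          rw [Finset.sum_comm]
          refine Finset.sum_congr rfl fun i _ => ?_
          rw [Finset.sum_comm]
          refine Finset.sum_congr rfl fun j _ => ?_
          rw [← Finset.sum_mul]
  -- the top degree
  have hex : ∃ d, (∃ i j, i + j = d ∧ m i j ≠ 0) := by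
    by_contra hcon
    push Not at hcon
    apply h
    rw [hexp]
    exact Finset.sum_eq_zero fun i _ => Finset.sum_eq_zero fun j _ => by
      rw [hcon (i + j) i j rfl, zero_mul]
  obtain ⟨d, ⟨i0, j0, hd0, hm00⟩, hdmax⟩ : ∃ d, (∃ i j, i + j = d ∧ m i j ≠ 0) ∧
      ∀ i j, d < i + j → m i j = 0 := by
    obtain ⟨d1, hd1⟩ := hex
    have hb : ∀ d, (∃ i j, i + j = d ∧ m i j ≠ 0) → d ≤ 2 * N := by
      rintro d ⟨i, j, hij, hne⟩
      by_contra hlt
      apply hne
      apply hm0
      omega
    refine ⟨Nat.findGreatest (fun d => ∃ i j, i + j = d ∧ m i j ≠ 0) (2 * N),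
      Nat.findGreatest_spec (P := fun d => ∃ i j, i + j = d ∧ m i j ≠ 0) (hb d1 hd1) hd1, ?_⟩
    intro i j hij
    by_contra hne
    exact absurd (Nat.le_findGreatest (P := fun d => ∃ i j, i + j = d ∧ m i j ≠ 0)
      (hb _ ⟨i, j, rfl, hne⟩) ⟨i, j, rfl, hne⟩) (by omega)
  let a : ℕ → K := fun j => if j ≤ d then m (d - j) j else 0
  let J : Finset ℕ := (range (N + 1)).filter fun j => a j ≠ 0
  have haJ : ∀ j ∈ J, j ≤ d ∧ m (d - j) j ≠ 0 := by
    intro j hj
    have := (Finset.mem_filter.1 hj).2
    simp only [a] at this
    split_ifs at this with h1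
    · exact ⟨h1, this⟩
    · exact absurd rfl this
  have hj0 : j0 ∈ J := by
    rw [Finset.mem_filter]
    refine ⟨?_, ?_⟩
    · rw [Finset.mem_range]
      by_contra hlt
      exact hm00 (hm0 _ _ (Or.inr (by omega)))
    · simp only [a]
      rw [if_pos (by omega), show d - j0 = i0 by omega]
      exact hm00
  have hJW : J.card ≤ W := by
    let A : Matrix J (Fin W) K := fun j r => (G r).coeff (d - j.1)
    let B : Matrix (Fin W) J K := fun r j => (H r).coeff j.1
    have hAB : ∀ j j' : J, (A * B) j j' = m (d - j.1) j'.1 := fun j j' => by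
      rw [Matrix.mul_apply]
    have htri : (A * B).BlockTriangular OrderDual.toDual := by
      intro j j' hlt
      have hlt' : j.1 < j'.1 := hlt
      rw [hAB]
      apply hdmax
      have := (haJ j.1 j.2).1
      omega
    have hdet : (A * B).det ≠ 0 := by
      rw [Matrix.det_of_isLowerTriangular _ htri, Finset.prod_ne_zero_iff]
      intro j _
      rw [hAB]
      exact (haJ j.1 j.2).2
    have hrank : (A * B).rank = Fintype.card J :=
      Matrix.rank_of_isUnit _ ((Matrix.isUnit_iff_isUnit_det _).2 (isUnit_iff_ne_zero.2 hdet))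
    have hle : (A * B).rank ≤ W := by
      refine (Matrix.rank_mul_le_left A B).trans ?_
      simpa using Matrix.rank_le_card_width A
    rw [hrank, Fintype.card_coe] at hle
    exact hle
  obtain ⟨s, hsW, hs⟩ := exists_choose W J hJW a j0 hj0 (Finset.mem_filter.1 hj0).2
  -- the reversed polynomial
  let R : K[X] := ∑ i ∈ range (N + 1), ∑ j ∈ range (N + 1),
    C (m i j) * (X ^ (W * (d - (i + j))) * (1 + X) ^ j)
  have hRs : R.coeff s ≠ 0 := by
    have e1 : R.coeff s = ∑ j ∈ range (N + 1), a j * (j.choose s : K) := by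
      simp only [R, Polynomial.finsetSum_coeff, coeff_C_mul, coeff_X_pow_mul', coeff_one_add_X_pow]
      rw [Finset.sum_comm]
      refine Finset.sum_congr rfl fun j hj => ?_
      have e2 : ∀ i ∈ range (N + 1), m i j * (if W * (d - (i + j)) ≤ s then
          ((j.choose (s - W * (d - (i + j))) : ℕ) : K) else 0)
          = if i + j = d then m i j * (j.choose s : K) else 0 := by
        intro i _
        rcases lt_trichotomy (i + j) d with h1 | h1 | h1
        · rw [if_neg, if_neg (by omega), mul_zero]
          have : 1 ≤ d - (i + j) := by omega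
          have := Nat.mul_le_mul_left W this
          omega
        · rw [if_pos h1, if_pos (by rw [h1]; simp), h1]
          simp
        · rw [hdmax i j h1]
          simp
      rw [Finset.sum_congr rfl e2]
      by_cases hjd : j ≤ d
      · simp only [a]
        rw [if_pos hjd]
        by_cases hdN : d - j ≤ N
        · rw [Finset.sum_eq_single_of_mem (d - j) (by rw [Finset.mem_range]; omega)]
          · rw [if_pos (by omega)]
          · intro i _ hne
            rw [if_neg (by omega)]
        · rw [hm0 _ _ (Or.inl (by omega)), zero_mul]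
          refine Finset.sum_eq_zero fun i hi => ?_
          rw [Finset.mem_range] at hi
          rw [if_neg (by omega)]
      · simp only [a]
        rw [if_neg hjd, zero_mul]
        exact Finset.sum_eq_zero fun i _ => by rw [if_neg (by omega)]
    rw [e1]
    have e3 : ∑ j ∈ range (N + 1), a j * (j.choose s : K) = ∑ j ∈ J, a j * (j.choose s : K) := by
      rw [Finset.sum_filter]
      refine Finset.sum_congr rfl fun j _ => ?_
      split_ifs with h1
      · rfl
      · rw [not_not] at h1
        rw [h1, zero_mul]
    rwa [e3]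
  have hR0 : X * R ≠ 0 := mul_ne_zero X_ne_zero fun h0 => hRs (by rw [h0, coeff_zero])
  obtain ⟨u, hu⟩ : ∃ u : K, (X * R).eval u ≠ 0 := by
    by_contra hcon
    push Not at hcon
    exact hR0 (Polynomial.funext fun u => by rw [hcon u, eval_zero])
  rw [eval_mul, eval_X] at hu
  have hu0 : u ≠ 0 := left_ne_zero_of_mul hu
  have hRu : R.eval u ≠ 0 := right_ne_zero_of_mul hu
  refine ⟨u⁻¹, fun hz => hRu ?_⟩
  have e1 : (u⁻¹) ^ W + (u⁻¹) ^ (W - 1) = (u⁻¹) ^ W * (1 + u) := by
    obtain ⟨w, rfl⟩ : ∃ w, W = w + 1 := ⟨W - 1, by omega⟩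
    rw [Nat.add_sub_cancel, pow_succ]
    field_simp
  rw [e1, hexp] at hz
  have e2 : R.eval u = u ^ (W * d) * ∑ i ∈ range (N + 1), ∑ j ∈ range (N + 1),
      m i j * ((u⁻¹ ^ W) ^ i * (u⁻¹ ^ W * (1 + u)) ^ j) := by
    simp only [R, Polynomial.eval_finsetSum, eval_mul, eval_C, eval_pow, eval_add, eval_X, eval_one]
    rw [Finset.mul_sum]
    refine Finset.sum_congr rfl fun i _ => ?_
    rw [Finset.mul_sum]
    refine Finset.sum_congr rfl fun j _ => ?_
    by_cases hij : i + j ≤ d
    · have e3 : u ^ (W * d) * ((u⁻¹ ^ W) ^ i * (u⁻¹ ^ W) ^ j) = u ^ (W * (d - (i + j))) := by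
        rw [← pow_add, ← pow_mul, inv_pow]
        have : W * d = W * (d - (i + j)) + W * (i + j) := by
          rw [← Nat.mul_add]; congr 1; omega
        rw [this, pow_add, mul_assoc, mul_inv_cancel₀ (pow_ne_zero _ hu0), mul_one]
      rw [← e3, mul_pow]
      ring
    · rw [hdmax i j (by omega)]
      ring
  rw [e2, hz, mul_zero]

end Pool.Agent.V8H61.RK
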